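import Mathlib
import Pool.Agent.V11306.ToepM

/-!
# `det [x + (j-k/p)] = x` over a half range, `p ≡ 3 (mod 4)`
-/

set_option autoImplicit false

namespace Pool.Agent.V11306.D17

open Finset Polynomial Matrix

open Pool.Agent.Helper184

open Pool.Agent.Helper184.Chapman (chi chi_apply T)

open Pool.Agent.V11306.Toep

variable {p : ℕ} [Fact p.Prime]

lemma entry (n : ℕ) (i j : Fin n) :
    T p ℤ n i j = legendreSym p (((i : ℕ) : ℤ) - ((j : ℕ) : ℤ)) := by
  simp [T, legendreSym]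

lemma ext_last {m : ℕ} (w : Fin (m + 1) → ℤ) : Chapman.ext w m = w (Fin.last m) := by
  simp [Chapman.ext, Fin.last]

lemma det_int (h3 : p % 4 = 3) (m : ℕ) (hm : p = 2 * m + 1) (x : ℤ) :
    (Matrix.of fun j k : Fin m => x + legendreSym p (((j : ℕ) : ℤ) - ((k : ℕ) : ℤ))).det = x := by
  have hJ := jacobi _ _ (AB h3 m hm x) (finSumFinEquiv : Fin m ⊕ Fin 1 ≃ Fin (m + 1))
  rw [A_det h3 m hm, one_mul] at hJ
  have e1 : (Matrix.of fun j k : Fin m => x + legendreSym p (((j : ℕ) : ℤ) - ((k : ℕ) : ℤ))) =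
      (Matrix.of fun i j : Fin (m + 1) => T p ℤ (m + 1) i j + x).submatrix
        (fun i => (finSumFinEquiv : Fin m ⊕ Fin 1 ≃ Fin (m + 1)) (Sum.inl i))
        (fun i => (finSumFinEquiv : Fin m ⊕ Fin 1 ≃ Fin (m + 1)) (Sum.inl i)) := by
    ext j k
    rw [Matrix.submatrix_apply, Matrix.of_apply, Matrix.of_apply, entry, add_comm]
    rfl
  rw [e1, hJ, Matrix.det_unique, Matrix.submatrix_apply, Matrix.of_apply]
  have e2 : (finSumFinEquiv : Fin m ⊕ Fin 1 ≃ Fin (m + 1)) (Sum.inr default) = Fin.last m := by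
    rfl
  rw [e2]
  have e3 : N p m (Fin.last m) (Fin.last m) = 0 := by
    have := N_skew h3 m hm (Fin.last m) (Fin.last m)
    omega
  obtain ⟨β, hβ, -, h4, -⟩ := values h3 m hm
  rw [ext_last] at h4
  have h5 : uu p m (Fin.last m) * uu p m (Fin.last m) = 1 := by
    rw [← h4] at hβ
    exact_mod_cast hβ
  rw [e3, h5]
  ring

end Pool.Agent.V11306.D17

open Polynomial in
/-- `MP_d17a30_nt`, Q1: for every prime `p ≡ 3 (mod 4)` the determinant of
`[x + (j-k/p)]`, `1 ≤ j, k ≤ (p-1)/2`, is `x`. -/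
theorem Pool.Agent.Results.MP_d17a30_nt.EveryPrime.result (p : ℕ) [Fact p.Prime]
    (h3 : p % 4 = 3) :
    (Matrix.of fun j k : Fin ((p - 1) / 2) =>
      (X : ℤ[X]) + C (legendreSym p ((((j : ℕ) : ℤ) + 1) - (((k : ℕ) : ℤ) + 1)))).det = X := by
  apply Polynomial.funext
  intro x
  have h1 : eval x (Matrix.of fun j k : Fin ((p - 1) / 2) =>
      (X : ℤ[X]) + C (legendreSym p ((((j : ℕ) : ℤ) + 1) - (((k : ℕ) : ℤ) + 1)))).det =
      (Matrix.of fun j k : Fin ((p - 1) / 2) =>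
        x + legendreSym p (((j : ℕ) : ℤ) - ((k : ℕ) : ℤ))).det := by
    rw [← coe_evalRingHom, RingHom.map_det]
    congr 1
    ext j k
    rw [RingHom.mapMatrix_apply, Matrix.map_apply, Matrix.of_apply, Matrix.of_apply,
      coe_evalRingHom, eval_add, eval_X, eval_C, add_sub_add_right_eq_sub]
  rw [h1, Pool.Agent.V11306.D17.det_int h3 ((p - 1) / 2) (by omega), eval_X]
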